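import Pool.Agent.Helper42.FR.Stmts

/-!
# Row NUM of the sheet FR: the stable solution of the recursion
-/

set_option autoImplicit false

namespace Pool.Agent.Helper52.FR

open Pool.Agent.Helper42.FR

theorem st_NUM : ST_NUM := by
  intro y b D hD hy hr
  have hs0 : (0 : ℝ) ≤ Real.sqrt 5 := Real.sqrt_nonneg 5
  have hs : Real.sqrt 5 * Real.sqrt 5 = 5 := Real.mul_self_sqrt (by norm_num)
  have hs2 : (2 : ℝ) ≤ Real.sqrt 5 := by nlinarith
  have hs3 : Real.sqrt 5 ≤ 3 := by nlinarith
  have hb : 0 ≤ b := le_trans (hy 0).1 (hy 0).2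
  -- the bound for `w_n = y_(n+1) - (√5 - 2) y_n`
  have hw : ∀ n, |y (n + 1) - (Real.sqrt 5 - 2) * y n| ≤ b := by
    intro n
    have h1 := hy n
    have h2 := hy (n + 1)
    rw [abs_le]
    constructor
    · nlinarith [mul_nonneg (sub_nonneg.2 hs3) h1.1]
    · nlinarith [mul_nonneg (sub_nonneg.2 hs2) h1.1]
  -- one step
  have hstep : ∀ n, 4 * |y (n + 1) - (Real.sqrt 5 - 2) * y n| ≤
      |y (n + 2) - (Real.sqrt 5 - 2) * y (n + 1)| + D * 3 ^ n := by
    intro n
    have h1 := hr n
    have h2 : (2 + Real.sqrt 5) * (y (n + 1) - (Real.sqrt 5 - 2) * y n) =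
        -(y n - (4 * y (n + 1) + y (n + 2))) -
          (y (n + 2) - (Real.sqrt 5 - 2) * y (n + 1)) := by
      linear_combination (-(y n)) * hs
    have h3 : (2 + Real.sqrt 5) * |y (n + 1) - (Real.sqrt 5 - 2) * y n| ≤
        |y n - (4 * y (n + 1) + y (n + 2))| +
          |y (n + 2) - (Real.sqrt 5 - 2) * y (n + 1)| := by
      rw [← abs_of_nonneg (show (0 : ℝ) ≤ 2 + Real.sqrt 5 by linarith), ← abs_mul, h2]
      refine (abs_sub _ _).trans ?_
      rw [abs_neg]
    nlinarith [abs_nonneg (y (n + 1) - (Real.sqrt 5 - 2) * y n)]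
  -- the induction
  have hind : ∀ N n, |y (n + 1) - (Real.sqrt 5 - 2) * y n| ≤ b * (1 / 4) ^ N + D * 3 ^ n := by
    intro N
    induction N with
    | zero =>
      intro n
      have h1 := hw n
      have h2 : 0 ≤ D * 3 ^ n := by positivity
      simpa using le_trans h1 (by linarith)
    | succ N ih =>
      intro n
      have h1 := hstep n
      have h2 := ih (n + 1)
      rw [pow_succ (3 : ℝ)] at h2
      rw [pow_succ]
      nlinarith
  have h0 := fun N => hind N 0
  have ht : Filter.Tendsto (fun N : ℕ => b * (1 / 4 : ℝ) ^ N + D * 3 ^ 0) Filter.atTop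
      (nhds (b * 0 + D * 3 ^ 0)) :=
    ((tendsto_pow_atTop_nhds_zero_of_lt_one (by norm_num) (by norm_num)).const_mul b).add_const _
  have h5 := ge_of_tendsto' ht h0
  simpa using h5

end Pool.Agent.Helper52.FR
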